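import Pool.Agent.MP_d9582c_gt.H34.Stmts
import Pool.Agent.MP_d9582c_gt.H27.Param

/-!
Averaged cone operators on a bounded convex open set.
-/

open scoped ContDiff ENNReal Topology
open MeasureTheory Set Filter ContinuousAlternatingMap

noncomputable section

namespace Pool.Agent.MP_d9582c_gt.H27

open H34

variable {n p : ℕ}

/-- The lower end of the interval of homothety ratios. -/
def t0 (δ : ℝ) : ℝ := max 0 (min 1 (1 - δ))

lemma t0_mem (δ : ℝ) : t0 δ ∈ Icc (0 : ℝ) 1 :=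
  ⟨le_max_left _ _, max_le zero_le_one (min_le_left _ _)⟩

lemma t0_eq {δ : ℝ} (h : δ ∈ Ioc (0 : ℝ) 1) : t0 δ = 1 - δ := by
  rw [t0, min_eq_right (by linarith [h.1]), max_eq_right (by linarith [h.2])]

/-- The point between `y` and `x`. -/
def cc (x : E n) (τ : ℝ) (y : E n) : E n := y + τ • (x - y)

lemma cc_mem {U : Set (E n)} (hU : Convex ℝ U) {x y : E n} (hx : x ∈ U) (hy : y ∈ U) {τ : ℝ}
    (hτ : τ ∈ Icc (0 : ℝ) 1) : cc x τ y ∈ U :=
  hU.add_smul_sub_mem hy hx hτ

/-- Contraction as a continuous bilinear map. -/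
def cur (n p : ℕ) : Alt n (p + 1) →L[ℝ] E n →L[ℝ] Alt n p :=
  (curryLeftLI (𝕜 := ℝ) (E := E n) (F := ℂ) (n := p)).toContinuousLinearMap

@[simp] lemma cur_apply (α : Alt n (p + 1)) : cur n p α = α.curryLeft := rfl

section
variable {X F G : Type} [NormedAddCommGroup X] [NormedSpace ℝ X] [NormedAddCommGroup F]
  [NormedSpace ℝ F] [NormedAddCommGroup G] [NormedSpace ℝ G]

lemma bil_contDiffAt (L : F →L[ℝ] E n →L[ℝ] G) {f : X → F} {g : X → E n} {x : X}
    (hf : ContDiffAt ℝ ∞ f x) (hg : ContDiffAt ℝ ∞ g x) :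
    ContDiffAt ℝ ∞ (fun z => L (f z) (g z)) x :=
  (L.contDiff.contDiffAt.comp x hf).clm_apply hg

lemma bil_hasFDerivAt (L : F →L[ℝ] E n →L[ℝ] G) {f : X → F} {g : X → E n} {x : X}
    {f' : X →L[ℝ] F} {g' : X →L[ℝ] E n} (hf : HasFDerivAt f f' x) (hg : HasFDerivAt g g' x) :
    HasFDerivAt (fun z => L (f z) (g z)) (L (f x) ∘L g' + L.flip (g x) ∘L f') x := by
  exact (L.hasFDerivAt.comp x hf).clm_apply hg

lemma clm_integral {α : Type} [MeasurableSpace α] {μ : Measure α} [CompleteSpace F]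
    [CompleteSpace G] (L : F →L[ℝ] G) {f : α → F} (hf : Integrable f μ) :
    Integrable (fun a => L (f a)) μ ∧ L (∫ a, f a ∂μ) = ∫ a, L (f a) ∂μ :=
  ⟨L.integrable_comp hf, (L.integral_comp_comm hf).symm⟩

end

/-- The integrand of the cone operator. -/
def gK (p : ℕ) (η : E n → Alt n (p + 1)) (z : E n × (ℝ × E n)) : Alt n p :=
  z.2.1 ^ p • cur n p (η (cc z.1 z.2.1 z.2.2)) (z.1 - z.2.2)

/-- The integrand of the smoothing operator. -/
def gS (τ : ℝ) (p : ℕ) (η : E n → Alt n p) (z : E n × E n) : Alt n p :=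
  τ ^ p • η (cc z.1 τ z.2)

def KK (B : Set (E n)) (δ : ℝ) (p : ℕ) (η : E n → Alt n (p + 1)) (x : E n) : Alt n p :=
  (volume.real B)⁻¹ • ∫ q in Icc (t0 δ) 1 ×ˢ B, gK p η (x, q)

def SS (B : Set (E n)) (δ : ℝ) (p : ℕ) (η : E n → Alt n p) (x : E n) : Alt n p :=
  (volume.real B)⁻¹ • ∫ y in B, gS (t0 δ) p η (x, y)

lemma cartan (D : E n →L[ℝ] Alt n (p + 1)) (u : E n) :
    alternatizeUncurryFin ((cur n p).flip u ∘L D) + (alternatizeUncurryFin D).curryLeft u =
      D u := by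
  ext w
  simp only [ContinuousAlternatingMap.add_apply, alternatizeUncurryFin_apply,
    curryLeft_apply_apply, ContinuousLinearMap.comp_apply, ContinuousLinearMap.flip_apply,
    cur_apply]
  rw [Fin.sum_univ_succ (f := fun i : Fin (p + 1 + 1) =>
    (-1 : ℤ) ^ (i : ℕ) • D (Matrix.vecCons u w i) (i.removeNth (Matrix.vecCons u w)))]
  have h1 : ∀ j : Fin (p + 1), (j.succ).removeNth (Matrix.vecCons u w) =
      Matrix.vecCons u (j.removeNth w) := by
    intro j
    funext i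
    cases i using Fin.cases <;> simp [Fin.removeNth]
  have h0 : (0 : Fin (p + 1 + 1)).removeNth (Matrix.vecCons u w) = w := by
    funext i; simp [Fin.removeNth]
  simp only [h1, h0, Fin.val_succ, pow_succ, Matrix.cons_val_succ, Matrix.cons_val_zero,
    Fin.val_zero, pow_zero, one_smul, mul_neg, mul_one, neg_smul, Finset.sum_neg_distrib]
  abel

lemma cartan_zero (D : E n →L[ℝ] Alt n 0) (u : E n) :
    (alternatizeUncurryFin D).curryLeft u = D u := by
  ext w
  simp only [alternatizeUncurryFin_apply, curryLeft_apply_apply, Fin.sum_univ_succ]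
  simp

section

variable {U B : Set (E n)} (hU : IsOpen U) (hc : Convex ℝ U) (hB : IsCompact B) (hBU : B ⊆ U)

include hU hc hBU in
lemma gK_smooth {η : E n → Alt n (p + 1)} (hη : ContDiffOn ℝ ∞ η U) (δ : ℝ) :
    ∀ x ∈ U, ∀ q ∈ Icc (t0 δ) 1 ×ˢ B, ContDiffAt ℝ ∞ (gK p η) (x, q) := by
  intro x hx q hq
  have hm : cc x q.1 q.2 ∈ U := cc_mem hc hx (hBU hq.2) ⟨(t0_mem δ).1.trans hq.1.1, hq.1.2⟩
  have h1 : ContDiffAt ℝ ∞ (fun z : E n × (ℝ × E n) => η (cc z.1 z.2.1 z.2.2)) (x, q) :=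
    ContDiffAt.comp (g := η) (x, q) (hη.contDiffAt (hU.mem_nhds hm)) (by unfold cc; fun_prop)
  have h2 : ContDiffAt ℝ ∞ (fun z : E n × (ℝ × E n) => z.2.1 ^ p) (x, q) := by fun_prop
  have h3 : ContDiffAt ℝ ∞ (fun z : E n × (ℝ × E n) => z.1 - z.2.2) (x, q) := by fun_prop
  exact h2.smul (bil_contDiffAt (cur n p) h1 h3)

include hU hc hBU in
lemma gS_smooth {η : E n → Alt n p} (hη : ContDiffOn ℝ ∞ η U) {τ : ℝ} (hτ : τ ∈ Icc (0 : ℝ) 1) :
    ∀ x ∈ U, ∀ y ∈ B, ContDiffAt ℝ ∞ (gS τ p η) (x, y) := by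
  intro x hx y hy
  have hm : cc x τ y ∈ U := cc_mem hc hx (hBU hy) hτ
  have h1 : ContDiffAt ℝ ∞ (fun z : E n × E n => η (cc z.1 τ z.2)) (x, y) :=
    ContDiffAt.comp (g := η) (x, y) (hη.contDiffAt (hU.mem_nhds hm)) (by unfold cc; fun_prop)
  exact h1.const_smul _

include hU in
lemma extDeriv_smooth {η : E n → Alt n p} (hη : ContDiffOn ℝ ∞ η U) :
    ContDiffOn ℝ ∞ (extDeriv η) U := by
  intro x hx
  have h := (hη.contDiffAt (hU.mem_nhds hx)).fderiv_right (m := ∞) (by simp)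
  exact ((alternatizeUncurryFinCLM ℝ (E n) ℂ).contDiff.contDiffAt.comp x h).contDiffWithinAt

/-- The derivative along the segment. -/
def dd (p : ℕ) (η : E n → Alt n p) (x : E n) (τ : ℝ) (y : E n) : Alt n p :=
  τ ^ p • fderiv ℝ η (cc x τ y) (x - y) + ((p : ℝ) * τ ^ (p - 1)) • η (cc x τ y)

lemma hasDerivAt_seg {η : E n → Alt n p} {x y : E n} {τ : ℝ}
    (h : DifferentiableAt ℝ η (cc x τ y)) :
    HasDerivAt (fun s => gS s p η (x, y)) (dd p η x τ y) τ := by
  have h1 : HasDerivAt (fun s => cc x s y) (x - y) τ := by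
    simpa [cc] using ((hasDerivAt_id τ).smul_const (x - y)).const_add y
  have h2 := h.hasFDerivAt.comp_hasDerivAt τ h1
  exact (hasDerivAt_pow p τ).smul h2

include hU hc hB hBU in
lemma ftc {η : E n → Alt n p} (hη : ContDiffOn ℝ ∞ η U) (δ : ℝ) (hb : volume.real B ≠ 0)
    {x : E n} (hx : x ∈ U) :
    (volume.real B)⁻¹ • ∫ q in Icc (t0 δ) 1 ×ˢ B, dd p η x q.1 q.2 = η x - SS B δ p η x := by
  have hmem : ∀ q ∈ Icc (t0 δ) 1 ×ˢ B, cc x q.1 q.2 ∈ U := fun q hq =>
    cc_mem hc hx (hBU hq.2) ⟨(t0_mem δ).1.trans hq.1.1, hq.1.2⟩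
  have hcont : ContinuousOn (fun q : ℝ × E n => dd p η x q.1 q.2) (Icc (t0 δ) 1 ×ˢ B) := by
    intro q hq
    have h0 := hη.contDiffAt (hU.mem_nhds (hmem q hq))
    have hcc : ContinuousAt (fun q : ℝ × E n => cc x q.1 q.2) q := by unfold cc; fun_prop
    have h1 := ContinuousAt.comp (f := fun q : ℝ × E n => cc x q.1 q.2) h0.continuousAt hcc
    have h2 := ContinuousAt.comp (f := fun q : ℝ × E n => cc x q.1 q.2)
      (h0.fderiv_right (m := ∞) (by simp)).continuousAt hcc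
    have h5 : ContinuousAt (fun q : ℝ × E n => q.1 ^ p) q := by fun_prop
    have h6 : ContinuousAt (fun q : ℝ × E n => (p : ℝ) * q.1 ^ (p - 1)) q := by fun_prop
    have h7 : ContinuousAt (fun q : ℝ × E n => x - q.2) q := by fun_prop
    exact ((h5.smul (h2.clm_apply h7)).add (h6.smul h1)).continuousWithinAt
  have hint : IntegrableOn (fun q : ℝ × E n => dd p η x q.1 q.2) (Icc (t0 δ) 1 ×ˢ B) volume :=
    hcont.integrableOn_compact (isCompact_Icc.prod hB)
  have h3 : ∫ q in Icc (t0 δ) 1 ×ˢ B, dd p η x q.1 q.2 =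
      ∫ y in B, ∫ τ in Icc (t0 δ) 1, dd p η x τ y := by
    rw [Measure.volume_eq_prod, ← Measure.prod_restrict]
    refine integral_prod_symm _ ?_
    rw [Measure.prod_restrict, ← Measure.volume_eq_prod]
    exact hint
  have h4 : ∀ y ∈ B, ∫ τ in Icc (t0 δ) 1, dd p η x τ y = η x - gS (t0 δ) p η (x, y) := by
    intro y hy
    have hle := (t0_mem δ).2
    rw [integral_Icc_eq_integral_Ioc, ← intervalIntegral.integral_of_le hle,
      intervalIntegral.integral_eq_sub_of_hasDerivAt (f := fun s => gS s p η (x, y))]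
    · simp [gS, cc]
    · intro τ hτ
      rw [uIcc_of_le hle] at hτ
      exact hasDerivAt_seg ((hη.contDiffAt (hU.mem_nhds (hmem (τ, y) ⟨hτ, hy⟩))).differentiableAt
        (by simp))
    · refine ContinuousOn.intervalIntegrable ?_
      rw [uIcc_of_le hle]
      exact hcont.comp (f := fun τ => (τ, y)) (by fun_prop) fun τ hτ => ⟨hτ, hy⟩
  have h5 : IntegrableOn (fun _ : E n => η x) B volume :=
    continuousOn_const.integrableOn_compact hB
  rw [h3, setIntegral_congr_fun hB.measurableSet h4, integral_sub h5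
    (slice_integrableOn hB (gS_smooth hU hc hBU hη (t0_mem δ) x hx)), setIntegral_const, smul_sub,
    smul_smul, inv_mul_cancel₀ hb, one_smul, SS]

lemma slice_formula {η : E n → Alt n (p + 1)} {x : E n} {q : ℝ × E n}
    (h : DifferentiableAt ℝ η (cc x q.1 q.2)) (hs : ContDiffAt ℝ ∞ (gK p η) (x, q)) :
    alternatizeUncurryFin (fderiv ℝ (gK p η) (x, q) ∘L ContinuousLinearMap.inl ℝ (E n) (ℝ × E n))
      + gK (p + 1) (extDeriv η) (x, q) = dd (p + 1) η x q.1 q.2 := by
  have h1 : HasFDerivAt (fun z => cc z q.1 q.2) (q.1 • ContinuousLinearMap.id ℝ (E n)) x := by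
    exact (((hasFDerivAt_id x).sub_const q.2).const_smul q.1).const_add q.2
  have h3 := (bil_hasFDerivAt (cur n p) (h.hasFDerivAt.comp x h1)
    ((hasFDerivAt_id x).sub_const q.2)).const_smul (q.1 ^ p)
  have h4 := (slice_hasFDerivAt hs).unique h3
  have h5 : fderiv ℝ (gK p η) (x, q) ∘L ContinuousLinearMap.inl ℝ (E n) (ℝ × E n) =
      q.1 ^ p • (η (cc x q.1 q.2)).curryLeft +
        q.1 ^ (p + 1) • ((cur n p).flip (x - q.2) ∘L fderiv ℝ η (cc x q.1 q.2)) := by
    rw [h4]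
    ext v w
    simp [pow_succ, mul_smul]
  rw [h5, alternatizeUncurryFin_add, alternatizeUncurryFin_smul, alternatizeUncurryFin_smul,
    alternatizeUncurryFin_curryLeft, gK, dd, ← cartan (fderiv ℝ η (cc x q.1 q.2)) (x - q.2),
    cur_apply, extDeriv, smul_add]
  simp only [Nat.add_sub_cancel]
  rw [← Nat.cast_smul_eq_nsmul ℝ, smul_smul, mul_comm]
  abel

include hU hc hB hBU in
lemma homotopy_succ {η : E n → Alt n (p + 1)} (hη : ContDiffOn ℝ ∞ η U) (δ : ℝ)
    (hb : volume.real B ≠ 0) {x : E n} (hx : x ∈ U) :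
    extDeriv (KK B δ p η) x + KK B δ (p + 1) (extDeriv η) x = η x - SS B δ (p + 1) η x := by
  have hT : IsCompact (Icc (t0 δ) 1 ×ˢ B) := isCompact_Icc.prod hB
  have hs := gK_smooth hU hc hBU hη δ
  have hd := (param_deriv (μ := volume) hT hU hs hx).const_smul (volume.real B)⁻¹
  have hi := slice_integrableOn (μ := volume) hT
    (f := fun w => fderiv ℝ (gK p η) w ∘L ContinuousLinearMap.inl ℝ (E n) (ℝ × E n))
    fun q hq => slice_contDiffAt (hs x hx q hq)
  have h1 : extDeriv (KK B δ p η) x = (volume.real B)⁻¹ • ∫ q in Icc (t0 δ) 1 ×ˢ B,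
      alternatizeUncurryFin (fderiv ℝ (gK p η) (x, q) ∘L
        ContinuousLinearMap.inl ℝ (E n) (ℝ × E n)) := by
    have h2 : fderiv ℝ (KK B δ p η) x = _ := hd.fderiv
    rw [extDeriv, h2, alternatizeUncurryFin_smul]
    congr 1
    exact (clm_integral (G := Alt n (p + 1)) (alternatizeUncurryFinCLM ℝ (E n) ℂ) hi).2
  have hi2 : IntegrableOn (fun q => alternatizeUncurryFin (fderiv ℝ (gK p η) (x, q) ∘L
      ContinuousLinearMap.inl ℝ (E n) (ℝ × E n))) (Icc (t0 δ) 1 ×ˢ B) volume := by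
    have h9 := (clm_integral (G := Alt n (p + 1)) (alternatizeUncurryFinCLM ℝ (E n) ℂ) hi).1
    exact h9
  rw [h1, KK, ← smul_add, ← integral_add hi2
    (slice_integrableOn hT (gK_smooth hU hc hBU (extDeriv_smooth hU hη) δ x hx)),
    ← ftc hU hc hB hBU hη δ hb hx]
  congr 1
  refine setIntegral_congr_fun hT.measurableSet fun q hq => ?_
  refine slice_formula ?_ (hs x hx q hq)
  exact (hη.contDiffAt (hU.mem_nhds (cc_mem hc hx (hBU hq.2)
    ⟨(t0_mem δ).1.trans hq.1.1, hq.1.2⟩))).differentiableAt (by simp)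

include hU hc hB hBU in
lemma homotopy_zero {η : E n → Alt n 0} (hη : ContDiffOn ℝ ∞ η U) (δ : ℝ)
    (hb : volume.real B ≠ 0) {x : E n} (hx : x ∈ U) :
    KK B δ 0 (extDeriv η) x = η x - SS B δ 0 η x := by
  rw [← ftc hU hc hB hBU hη δ hb hx, KK]
  congr 2
  funext q
  simp [gK, dd, extDeriv, cartan_zero]
  exact zero_smul ℝ (η (cc x q.1 q.2))

/-- The norm of a form, extended by zero. -/
def nm (U : Set (E n)) (η : E n → Alt n p) : E n → ℝ≥0∞ := U.indicator fun x => ‖η x‖ₑ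

include hU in
lemma nm_measurable {η : E n → Alt n p} (hη : ContDiffOn ℝ ∞ η U) : Measurable (nm U η) := by
  classical
  have h := ContinuousOn.measurable_piecewise (f := fun x => ‖η x‖ₑ) (g := fun _ => 0)
    (continuous_enorm.comp_continuousOn hη.continuousOn) continuousOn_const hU.measurableSet
  exact h

include hU in
lemma nm_lintegral (η : E n → Alt n p) : ∫⁻ x, nm U η x ^ 2 = ∫⁻ x in U, ‖η x‖ₑ ^ 2 := by
  rw [← lintegral_indicator hU.measurableSet]
  congr 1
  funext x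
  by_cases hx : x ∈ U <;> simp [nm, hx]

lemma enorm_avg {α : Type} [MeasurableSpace α] (μ : Measure α) {f : α → Alt n p}
    {g : α → ℝ≥0∞} (hg : AEMeasurable g μ) (h : ∀ᵐ a ∂μ, ‖f a‖ₑ ≤ g a) {b : ℝ} (hb : 0 ≤ b) :
    ‖b • ∫ a, f a ∂μ‖ₑ ^ 2 ≤ ENNReal.ofReal b ^ 2 * (μ univ * ∫⁻ a, g a ^ 2 ∂μ) := by
  rw [enorm_smul, mul_pow, Real.enorm_eq_ofReal hb]
  gcongr
  refine le_trans ?_ (lintegral_sq_le μ hg)
  gcongr
  exact (enorm_integral_le_lintegral_enorm _).trans (lintegral_mono_ae h)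

lemma enorm_pow_le {τ : ℝ} (hτ : τ ∈ Icc (0 : ℝ) 1) (p : ℕ) : ‖τ ^ p‖ₑ ≤ 1 := by
  rw [Real.enorm_eq_ofReal (pow_nonneg hτ.1 p), ENNReal.ofReal_le_one]
  exact pow_le_one₀ hτ.1 hτ.2

include hU hc hB hBU in
lemma S_bound {η : E n → Alt n p} (hη : ContDiffOn ℝ ∞ η U) {δ : ℝ} (hδ : δ ∈ Ioc (0 : ℝ) 1)
    (hb : 0 < volume.real B) {x : E n} (hx : x ∈ U) :
    ‖SS B δ p η x‖ₑ ^ 2 ≤
      ENNReal.ofReal ((volume.real B)⁻¹ / δ ^ n) * ∫⁻ x in U, ‖η x‖ₑ ^ 2 := by
  have hm := nm_measurable hU hη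
  have hmc : Measurable fun y => nm U η (cc x (t0 δ) y) := hm.comp (by unfold cc; fun_prop)
  have h1 := enorm_avg (volume.restrict B) (f := fun y => gS (t0 δ) p η (x, y))
    hmc.aemeasurable ?_ (inv_nonneg.2 hb.le)
  · refine h1.trans ?_
    have h2 : ∫⁻ y in B, nm U η (cc x (t0 δ) y) ^ 2 ≤
        ENNReal.ofReal (δ ^ n)⁻¹ * ∫⁻ x in U, ‖η x‖ₑ ^ 2 := by
      rw [← nm_lintegral hU, ← lintegral_affine (hm.pow_const 2) ((1 - δ) • x) hδ.1]
      refine (setLIntegral_le_lintegral _ _).trans (le_of_eq ?_)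
      congr 1
      funext y
      congr 2
      rw [t0_eq hδ, cc]
      module
    rw [Measure.restrict_apply_univ, ← ofReal_measureReal hB.measure_lt_top.ne]
    calc _ ≤ ENNReal.ofReal (volume.real B)⁻¹ ^ 2 * (ENNReal.ofReal (volume.real B) *
          (ENNReal.ofReal (δ ^ n)⁻¹ * ∫⁻ x in U, ‖η x‖ₑ ^ 2)) := by gcongr
      _ = _ := by
        have hδn : 0 < δ ^ n := pow_pos hδ.1 n
        rw [← mul_assoc, ← mul_assoc, ← ENNReal.ofReal_pow (by positivity),
          ← ENNReal.ofReal_mul (by positivity), ← ENNReal.ofReal_mul (by positivity)]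
        congr 2
        field_simp
  · filter_upwards [ae_restrict_mem hB.measurableSet] with y hy
    have hmem := cc_mem hc hx (hBU hy) (t0_mem δ)
    rw [gS, enorm_smul, nm, indicator_of_mem hmem]
    exact mul_le_of_le_one_left' (enorm_pow_le (t0_mem δ) p)

include hU hB hBU in
lemma double_bound {h : E n → ℝ≥0∞} (hh : Measurable h) {τ : ℝ} (hτ : τ ∈ Icc (0 : ℝ) 1) :
    ∫⁻ y in B, ∫⁻ x in U, h (cc x τ y) ≤ volume U * (ENNReal.ofReal (2 ^ n) * ∫⁻ x, h x) := by
  have key : ∀ (a : E n) (r : ℝ), 1 / 2 ≤ r →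
      ∫⁻ x, h (a + r • x) ≤ ENNReal.ofReal (2 ^ n) * ∫⁻ x, h x := by
    intro a r hr
    rw [lintegral_affine hh a (by linarith)]
    gcongr
    rw [← inv_pow]
    gcongr
    rw [inv_le_comm₀ (by linarith) (by norm_num)]
    linarith
  rcases le_total (1 / 2) τ with h1 | h1
  · calc _ ≤ ∫⁻ y in B, ENNReal.ofReal (2 ^ n) * ∫⁻ x, h x := by
          refine lintegral_mono fun y => (setLIntegral_le_lintegral _ _).trans ?_
          refine le_trans (le_of_eq ?_) (key ((1 - τ) • y) τ h1)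
          congr 1
          funext x
          congr 1
          rw [cc]
          module
      _ ≤ _ := by
          rw [setLIntegral_const, mul_comm]
          gcongr
  · have hm : Measurable (Function.uncurry fun y x : E n => h (cc x τ y)) :=
      hh.comp (f := fun z : E n × E n => cc z.2 τ z.1) (by unfold cc; fun_prop)
    rw [lintegral_lintegral_swap hm.aemeasurable]
    calc _ ≤ ∫⁻ x in U, ENNReal.ofReal (2 ^ n) * ∫⁻ x, h x := by
          refine lintegral_mono fun x => (setLIntegral_le_lintegral _ _).trans ?_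
          refine le_trans (le_of_eq ?_) (key (τ • x) (1 - τ) (by linarith))
          congr 1
          funext y
          congr 1
          rw [cc]
          module
      _ ≤ _ := by rw [setLIntegral_const, mul_comm]

include hU hc hB hBU in
lemma K_bound {η : E n → Alt n (p + 1)} (hη : ContDiffOn ℝ ∞ η U) {δ : ℝ}
    (hδ : δ ∈ Ioc (0 : ℝ) 1) (hb : 0 < volume.real B) (hfin : volume U ≠ ⊤) {D : ℝ} (hD0 : 0 ≤ D)
    (hD : ∀ x ∈ U, ∀ y ∈ U, ‖x - y‖ ≤ D) :
    ∫⁻ x in U, ‖KK B δ p η x‖ₑ ^ 2 ≤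
      ENNReal.ofReal ((D ^ 2 * 2 ^ n * volume.real U / volume.real B) * δ ^ 2) *
        ∫⁻ x in U, ‖η x‖ₑ ^ 2 := by
  have hm := nm_measurable hU hη
  have hT : MeasurableSet (Icc (t0 δ) 1 ×ˢ B) := measurableSet_Icc.prod hB.measurableSet
  have hI : volume (Icc (t0 δ) 1) = ENNReal.ofReal δ := by
    rw [Real.volume_Icc, t0_eq hδ]; simp
  have hvol : (volume : Measure (ℝ × E n)) (Icc (t0 δ) 1 ×ˢ B) =
      ENNReal.ofReal δ * ENNReal.ofReal (volume.real B) := by
    rw [Measure.volume_eq_prod, Measure.prod_prod, hI, ofReal_measureReal hB.measure_lt_top.ne]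
  have hmz : Measurable fun z : E n × (ℝ × E n) => nm U η (cc z.1 z.2.1 z.2.2) :=
    hm.comp (by unfold cc; fun_prop)
  have h1 : ∀ x ∈ U, ‖KK B δ p η x‖ₑ ^ 2 ≤ ENNReal.ofReal (volume.real B)⁻¹ ^ 2 *
      (ENNReal.ofReal δ * ENNReal.ofReal (volume.real B) * (ENNReal.ofReal D ^ 2 *
        ∫⁻ q in Icc (t0 δ) 1 ×ˢ B, nm U η (cc x q.1 q.2) ^ 2)) := by
    intro x hx
    have hmq : Measurable fun q : ℝ × E n => nm U η (cc x q.1 q.2) :=
      hmz.comp (measurable_prodMk_left (x := x))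
    have h2 := enorm_avg (volume.restrict (Icc (t0 δ) 1 ×ˢ B)) (f := fun q => gK p η (x, q))
      (g := fun q => ENNReal.ofReal D * nm U η (cc x q.1 q.2))
      (hmq.const_mul _).aemeasurable ?_ (inv_nonneg.2 hb.le)
    · refine h2.trans (le_of_eq ?_)
      rw [Measure.restrict_apply_univ, hvol, ← lintegral_const_mul _ (hmq.pow_const 2)]
      simp only [mul_pow]
    · filter_upwards [ae_restrict_mem hT] with q hq
      have hτ : q.1 ∈ Icc (0 : ℝ) 1 := ⟨(t0_mem δ).1.trans hq.1.1, hq.1.2⟩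
      have hmem := cc_mem hc hx (hBU hq.2) hτ
      rw [gK, enorm_smul, nm, indicator_of_mem hmem]
      refine (mul_le_of_le_one_left' (enorm_pow_le hτ p)).trans ?_
      rw [← ofReal_norm, ← ofReal_norm, ← ENNReal.ofReal_mul hD0]
      refine ENNReal.ofReal_le_ofReal ?_
      refine ((η (cc x q.1 q.2)).curryLeft.le_opNorm _).trans ?_
      rw [norm_curryLeft, mul_comm]
      exact mul_le_mul_of_nonneg_right (hD x hx q.2 (hBU hq.2)) (norm_nonneg _)
  have h3 : ∫⁻ x in U, ∫⁻ q in Icc (t0 δ) 1 ×ˢ B, nm U η (cc x q.1 q.2) ^ 2 ≤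
      ENNReal.ofReal δ * (volume U * (ENNReal.ofReal (2 ^ n) * ∫⁻ x in U, ‖η x‖ₑ ^ 2)) := by
    rw [lintegral_lintegral_swap (hmz.pow_const 2).aemeasurable, Measure.volume_eq_prod,
      ← Measure.prod_restrict, lintegral_prod _
        (Measurable.lintegral_prod_left' (hmz.pow_const 2)).aemeasurable, ← nm_lintegral hU, ← hI,
      mul_comm, ← setLIntegral_const]
    refine setLIntegral_mono' measurableSet_Icc fun τ hτ => ?_
    exact double_bound hU hB hBU (hm.pow_const 2) ⟨(t0_mem δ).1.trans hτ.1, hτ.2⟩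
  refine (setLIntegral_mono' hU.measurableSet h1).trans ?_
  rw [lintegral_const_mul' _ _ (by finiteness), lintegral_const_mul' _ _ (by finiteness),
    lintegral_const_mul' _ _ (by finiteness)]
  calc _ ≤ ENNReal.ofReal (volume.real B)⁻¹ ^ 2 *
      (ENNReal.ofReal δ * ENNReal.ofReal (volume.real B) * (ENNReal.ofReal D ^ 2 *
        (ENNReal.ofReal δ * (volume U * (ENNReal.ofReal (2 ^ n) * ∫⁻ x in U, ‖η x‖ₑ ^ 2))))) := by
        gcongr
    _ = _ := by
      have hδ0 := hδ.1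
      have hU0 : 0 ≤ volume.real U := measureReal_nonneg
      rw [← ofReal_measureReal hfin, ← ENNReal.ofReal_pow (by positivity),
        ← ENNReal.ofReal_pow hD0]
      simp only [← mul_assoc]
      rw [← ENNReal.ofReal_mul (by positivity), ← ENNReal.ofReal_mul (by positivity),
        ← ENNReal.ofReal_mul (by positivity), ← ENNReal.ofReal_mul (by positivity),
        ← ENNReal.ofReal_mul (by positivity), ← ENNReal.ofReal_mul (by positivity)]
      congr 2
      field_simp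

end

lemma avg_add {α : Type} [MeasurableSpace α] {μ : Measure α} (b : ℝ) {f g k : α → Alt n p}
    (hf : Integrable f μ) (hg : Integrable g μ) (h : ∀ a, k a = f a + g a) :
    b • ∫ a, k a ∂μ = b • ∫ a, f a ∂μ + b • ∫ a, g a ∂μ := by
  rw [funext h, integral_add hf hg]
  exact smul_add b _ _

lemma avg_smul {α : Type} [MeasurableSpace α] {μ : Measure α} (b : ℝ) (c : ℂ)
    {f k : α → Alt n p} (h : ∀ a, k a = c • f a) :
    b • ∫ a, k a ∂μ = c • b • ∫ a, f a ∂μ := by
  rw [funext h, integral_smul c f]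
  exact smul_comm b c _

theorem eucl : EuclStmt := by
  intro n U hU hc hbd ⟨x₀, hx₀⟩
  obtain ⟨r, hr, hBU⟩ := Metric.nhds_basis_closedBall.mem_iff.1 (hU.mem_nhds hx₀)
  set B := Metric.closedBall x₀ r
  have hB : IsCompact B := isCompact_closedBall x₀ r
  have hb : 0 < volume.real B :=
    ENNReal.toReal_pos (Metric.measure_closedBall_pos volume x₀ hr).ne' hB.measure_lt_top.ne
  have hfin : volume U ≠ ⊤ := hbd.measure_lt_top.ne
  have hD : ∀ x ∈ U, ∀ y ∈ U, ‖x - y‖ ≤ Metric.diam U := fun x hx y hy => by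
    rw [← dist_eq_norm]; exact Metric.dist_le_diam_of_mem hbd hx hy
  have hT : ∀ δ, IsCompact (Icc (t0 δ) 1 ×ˢ B) := fun δ => isCompact_Icc.prod hB
  have hU0 : 0 ≤ volume.real U := measureReal_nonneg
  refine ⟨{
    K := KK B
    S := SS B
    C := Metric.diam U ^ 2 * 2 ^ n * volume.real U / volume.real B + (volume.real B)⁻¹
    K_congr := ?_, S_congr := ?_, K_add := ?_, S_add := ?_, K_smul := ?_, S_smul := ?_
    K_smooth := fun δ _ p η hη =>
      (param_smooth (hT δ) hU (gK_smooth hU hc hBU hη δ)).const_smul _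
    S_smooth := fun δ _ p η hη =>
      (param_smooth hB hU (gS_smooth hU hc hBU hη (t0_mem δ))).const_smul _
    homotopy_succ := fun δ _ p η hη x hx => homotopy_succ hU hc hB hBU hη δ hb.ne' hx
    homotopy_zero := fun δ _ η hη x hx => homotopy_zero hU hc hB hBU hη δ hb.ne' hx
    K_bound := ?_, S_bound := ?_, S_one_succ := ?_, S_one_zero := ?_ }⟩
  · intro δ p η ξ h x hx
    simp only [KK]
    congr 1
    refine setIntegral_congr_fun (hT δ).measurableSet fun q hq => ?_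
    simp only [gK]
    rw [h (cc_mem hc hx (hBU hq.2) ⟨(t0_mem δ).1.trans hq.1.1, hq.1.2⟩)]
  · intro δ p η ξ h x hx
    simp only [SS]
    congr 1
    refine setIntegral_congr_fun hB.measurableSet fun y hy => ?_
    simp only [gS]
    rw [h (cc_mem hc hx (hBU hy) (t0_mem δ))]
  · intro δ _ p η ξ hη hξ x hx
    refine avg_add _ (slice_integrableOn (hT δ) (gK_smooth hU hc hBU hη δ x hx))
      (slice_integrableOn (hT δ) (gK_smooth hU hc hBU hξ δ x hx)) fun q => ?_
    simp [gK]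
  · intro δ _ p η ξ hη hξ x hx
    refine avg_add _ (slice_integrableOn hB (gS_smooth hU hc hBU hη (t0_mem δ) x hx))
      (slice_integrableOn hB (gS_smooth hU hc hBU hξ (t0_mem δ) x hx)) fun q => ?_
    simp [gS]
  · intro δ p c η x _
    refine avg_smul _ c fun q => ?_
    ext w
    simp [gK]
    ring
  · intro δ p c η x _
    refine avg_smul _ c fun q => ?_
    ext w
    simp [gS]
    ring
  · intro δ hδ p η hη
    refine (K_bound hU hc hB hBU hη hδ hb hfin Metric.diam_nonneg hD).trans ?_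
    gcongr
    exact le_add_of_nonneg_right (by positivity)
  · intro δ hδ p η hη x hx
    refine (S_bound hU hc hB hBU hη hδ hb hx).trans ?_
    have := hδ.1
    gcongr
    exact le_add_of_nonneg_left (by positivity)
  · intro p η x _
    have h : ∀ y, gS (t0 1) (p + 1) η (x, y) = 0 := fun y => by
      have h0 : t0 1 ^ (p + 1) = 0 := by simp [t0]
      rw [gS, h0]
      exact zero_smul ℝ (η (cc x (t0 1) y))
    simp [SS, h]
  · intro η x _ y _
    simp [SS, gS, cc, t0]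

end Pool.Agent.MP_d9582c_gt.H27
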